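import Pool.Agent.Helper50.MB.Goals

/-!
# MP_fda85d_co, project MB: the number of subsets with at most `k` elements
-/

set_option autoImplicit false

namespace Pool.Agent.Helper22.MB

open Finset

theorem card_small {α : Type} [DecidableEq α] (S : Finset α) (k : ℕ) :
    (S.powerset.filter fun s ↦ s.card ≤ k).card ≤ (S.card + 1) ^ k := by
  induction k with
  | zero =>
    rw [pow_zero, card_le_one]
    intro a ha b hb
    rw [mem_filter, Nat.le_zero, card_eq_zero] at ha hb
    rw [ha.2, hb.2]
  | succ k ih =>
    have hsub : (S.powerset.filter fun s ↦ s.card ≤ k + 1) ⊆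
        (S.powerset.filter fun s ↦ s.card ≤ k) ∪
          (S ×ˢ (S.powerset.filter fun s ↦ s.card ≤ k)).image fun p ↦ insert p.1 p.2 := by
      intro s hs
      rw [mem_filter, mem_powerset] at hs
      rcases s.eq_empty_or_nonempty with rfl | ⟨x, hx⟩
      · exact mem_union_left _ (by simp)
      · refine mem_union_right _ (mem_image.2 ⟨(x, s.erase x), ?_, insert_erase hx⟩)
        rw [mem_product, mem_filter, mem_powerset]
        refine ⟨hs.1 hx, (erase_subset _ _).trans hs.1, ?_⟩
        rw [card_erase_of_mem hx]
        omega
    calc _ ≤ _ := card_le_card hsub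
      _ ≤ (S.powerset.filter fun s ↦ s.card ≤ k).card +
          (S ×ˢ (S.powerset.filter fun s ↦ s.card ≤ k)).card :=
        (card_union_le _ _).trans (Nat.add_le_add_left card_image_le _)
      _ = (S.card + 1) * (S.powerset.filter fun s ↦ s.card ≤ k).card := by
        rw [card_product]
        ring
      _ ≤ (S.card + 1) * (S.card + 1) ^ k := Nat.mul_le_mul_left _ ih
      _ = (S.card + 1) ^ (k + 1) := by ring

theorem goalSUBS : Pool.Agent.Helper50.MB.SUBS := by
  classical
  intro α S k
  have h : {s : Finset α | s ⊆ S ∧ s.card ≤ k} =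
      ((S.powerset.filter fun s ↦ s.card ≤ k : Finset (Finset α)) : Set (Finset α)) := by
    ext s
    simp
  rw [h, Set.ncard_coe_finset]
  exact card_small S k

end Pool.Agent.Helper22.MB
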